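import Pool.Agent.QUD.StmtsR

/-!
# Row MOT of squad QUD (helper86): direct motions
-/

set_option autoImplicit false

namespace Pool.Agent.QUD.H86

open MeasureTheory Complex Pool.Agent.H16Iso
open Pool.Agent.H1Gen (det CCW poly)

theorem sq_one {ω : ℂ} (h : ‖ω‖ = 1) : ω.re * ω.re + ω.im * ω.im = 1 := by
  rw [← Complex.normSq_apply, Complex.normSq_eq_norm_sq, h, one_pow]

theorem conj_mul_self {ω : ℂ} (h : ‖ω‖ = 1) : (starRingEnd ℂ) ω * ω = 1 := by
  rw [mul_comm, Complex.mul_conj, Complex.normSq_eq_norm_sq, h, one_pow, Complex.ofReal_one]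

theorem det_rot {ω : ℂ} (h : ‖ω‖ = 1) (a b : ℂ) : det (ω * a) (ω * b) = det a b := by
  have h1 := sq_one h
  simp only [det, Complex.mul_re, Complex.mul_im]
  linear_combination (a.re * b.im - a.im * b.re) * h1

theorem sp_rot {ω : ℂ} (h : ‖ω‖ = 1) (a b : ℂ) : sp (ω * a) (ω * b) = sp a b := by
  have h1 := sq_one h
  simp only [sp, Complex.mul_re, Complex.mul_im]
  linear_combination (a.re * b.re + a.im * b.im) * h1

theorem norm_rot {ω : ℂ} (h : ‖ω‖ = 1) (a : ℂ) : ‖ω * a‖ = ‖a‖ := by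
  rw [norm_mul, h, one_mul]

/-- the inverse of the motion `x ↦ ω x + τ` -/
noncomputable def iso (ω τ : ℂ) (h : ‖ω‖ = 1) : ℂ ≃ᵢ ℂ where
  toFun x := (starRingEnd ℂ) ω * (x - τ)
  invFun x := ω * x + τ
  left_inv x := by
    have h1 := conj_mul_self h
    show ω * ((starRingEnd ℂ) ω * (x - τ)) + τ = x
    linear_combination (x - τ) * h1
  right_inv x := by
    have h1 := conj_mul_self h
    show (starRingEnd ℂ) ω * (ω * x + τ - τ) = x
    linear_combination x * h1
  isometry_toFun := by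
    apply Isometry.of_dist_eq
    intro x y
    rw [dist_eq_norm, dist_eq_norm, ← mul_sub, norm_mul, RCLike.norm_conj, h, one_mul]
    congr 1
    ring

/-- **Row MOT.** -/
theorem mot (hP : PcgStmt) : MotStmt := by
  rintro v z ⟨ω, τ, hω, hv⟩
  have hd : ∀ i j, v i - v j = ω * (z i - z j) := by
    intro i j
    rw [hv, hv]
    ring
  refine ⟨?_, ?_, ?_, ?_, ?_, ?_⟩
  · intro h i j k hij hjk
    rw [hd, hd, det_rot hω]
    exact h i j k hij hjk
  · intro h i j k hij hjk
    have h1 := h i j k hij hjk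
    rwa [hd, hd, det_rot hω] at h1
  · apply hP v z (iso ω τ hω)
    rw [← Set.range_comp]
    congr 1
    funext i
    show (starRingEnd ℂ) ω * (v i - τ) = z i
    rw [hv]
    linear_combination z i * conj_mul_self hω
  · unfold ar
    rw [hd, hd, hd, det_rot hω, det_rot hω]
  · unfold pm en
    rw [hd, hd, hd, hd, norm_rot hω, norm_rot hω, norm_rot hω, norm_rot hω]
  · intro i
    refine ⟨?_, ?_⟩
    · unfold en
      rw [hd, norm_rot hω]
    · unfold an
      rw [hd, hd, sp_rot hω, norm_rot hω, norm_rot hω]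

end Pool.Agent.QUD.H86
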